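import Pool.Agent.N688.RO.Rare
import Pool.Agent.N646.AC.Vec

/-!
# Vectors in Bohr sets with the right number of realisations
-/

set_option autoImplicit false
set_option maxHeartbeats 4000000

namespace Pool.Agent.N688.RO

open Finset Filter Topology
open Pool.Agent.H378R2 Pool.Agent.H387R2 Pool.Agent.H387R2.MB Pool.Agent.H362R2.QT
open Pool.Agent.N646.AC

theorem mn_shift {U : Finset ℤ} (hU : U.Nonempty) (c : ℤ) : mn (U.image (fun z => z + c)) = mn U + c := by
  apply le_antisymm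
  · exact mn_le (mem_image_of_mem (fun z => z + c) (mn_mem hU))
  · obtain ⟨z, hz, h⟩ := mem_image.1 (mn_mem (hU.image (fun z => z + c)))
    rw [← h]
    have := mn_le hz
    show mn U + c ≤ z + c
    linarith

theorem pat_trans (D : ℕ) (U : Finset ℤ) (c : ℤ) : pat D (U.image (fun z => z + c)) = pat D U := by
  rcases U.eq_empty_or_nonempty with rfl | hU
  · rfl
  · unfold pat
    rw [image_image, mn_shift hU]
    apply image_congr
    intro z _
    simp only [Function.comp_apply]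
    congr 2
    ring

open Classical in
theorem ro_vectors (k s : ℕ) (ε : ℝ) (hε : 0 < ε) :
    ∃ (P0 d : ℕ) (ρ δ : ℝ), 1 ≤ P0 ∧ (∀ p : ℕ, p.Prime → p ≤ k + 1 → p ∣ P0) ∧ 0 < ρ ∧ 0 < δ ∧
    ∀ lam : ℝ, 0 < lam → ∃ κ : ℝ, 0 < κ ∧ ∀ C : ℝ, ∀ᶠ N : ℕ in atTop, ∀ q : ℕ, 1 ≤ q → ∀ H : ℕ,
      lam * Real.log N ≤ H → (q : ℝ) * H ≤ Real.log N ^ C →
      ∃ (Θ : Finset ℝ) (r : ℝ), Θ.card ≤ d ∧ ρ ≤ r ∧ r ≤ 1 ∧ δ * H ≤ (Bz Θ r H).card ∧
      (((Fintype.piFinset (fun _ : Fin k => Bz Θ r H)).filter (fun y =>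
        ¬ ∀ T ∈ Mats k s, T.det ≠ 0 → Function.Injective (nv (T.mulVec y)) ∧
          GoodZ κ (P0 * q) k N (univ.image (nv (T.mulVec y))))).card : ℝ) ≤
        ε * ((Bz Θ r H).card : ℝ) ^ k := by
  obtain ⟨d, H₀, ρ, δ, ε', hρ, hδ, hε', hret⟩ := returnsZ k s (1 / 8) (by norm_num) ε hε
  obtain ⟨m, n₀, hm1, hmk, hcl⟩ := wcl4 k (min ε' (1 / 8)) (lt_min hε' (by norm_num)) (k + 1)
  obtain ⟨P0, hP0, hdvd, hrare⟩ := rare k m hm1 (by omega)
  refine ⟨P0, d, ρ, δ, hP0, hdvd, hρ, hδ, fun lam hlam => ?_⟩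
  obtain ⟨κ, hκ, hκC⟩ := hrare lam hlam
  refine ⟨κ, hκ, fun C => ?_⟩
  have tL : Tendsto (fun N : ℕ => lam * Real.log (N : ℝ)) atTop atTop :=
    (Real.tendsto_log_atTop.comp tendsto_natCast_atTop_atTop).const_mul_atTop hlam
  filter_upwards [hκC C, tL.eventually_ge_atTop ((max (max H₀ n₀) 1 : ℕ) : ℝ)] with N h1 h2
  intro q hq H hH hu
  have hH' : max (max H₀ n₀) 1 ≤ H := by exact_mod_cast h2.trans hH
  have hH0 : H₀ ≤ H := (le_max_left _ _).trans ((le_max_left _ _).trans hH')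
  have hH1 : n₀ ≤ H := (le_max_right _ _).trans ((le_max_left _ _).trans hH')
  have hH2 : 1 ≤ H := (le_max_right _ _).trans hH'
  have hVc : (Ico 0 (H : ℤ)).card = H := by rw [Int.card_Ico, sub_zero, Int.toNat_natCast]
  have hHr : (0 : ℝ) < H := by exact_mod_cast hH2
  obtain ⟨A, hA1, hA2, hA3⟩ := hcl ℤ (Ico 0 (H : ℤ)) (GG κ (P0 * q) k N) (by rw [hVc]; exact hH1)
    (fun F F' h h' => GG_mono F F' h h') (by
      rw [hVc]
      refine le_trans (le_of_eq ?_) (h1 q hq H hH hu)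
      congr!)
  rw [hVc] at hA2 hA3
  have hAα : 1 / 8 * (H : ℝ) ≤ A.card := by
    refine le_trans ?_ hA2
    apply mul_le_mul_of_nonneg_right _ hHr.le
    have := min_le_right ε' (1 / 8 : ℝ)
    linarith
  obtain ⟨Θ, r, g1, g2, g3, g4, g5⟩ := hret H hH0 A hA1 hAα
  refine ⟨Θ, r, g1, g2, g3, g4, ?_⟩
  refine g5 (fun t => GoodZ κ (P0 * q) k N (univ.image t)) ?_
  calc (((Fintype.piFinset (fun _ : Fin (k + 1) => A)).filter (fun t => Function.Injective t ∧
        ¬ GoodZ κ (P0 * q) k N (univ.image (fun i => t i - t 0)))).card : ℝ)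
      ≤ ((badT k A (GG κ (P0 * q) k N)).card : ℝ) := by
        rw [Nat.cast_le]
        apply card_le_card
        intro t ht
        rw [mem_filter, Fintype.mem_piFinset] at ht
        rw [mem_badT]
        refine ⟨ht.1, ht.2.1, fun hG => ht.2.2 ?_⟩
        have e : univ.image (fun i => t i - t 0) = (univ.image t).image (fun z => z + -t 0) := by
          rw [image_image]
          apply image_congr
          intro i _
          simp only [Function.comp_apply]
          ring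
        have h3 := hG (univ.image t) Subset.rfl (by
          rw [card_image_of_injective _ ht.2.1, card_univ, Fintype.card_fin])
        unfold GoodZ at h3 ⊢
        rw [e, pat_trans]
        exact h3
    _ ≤ min ε' (1 / 8) * (H : ℝ) ^ (k + 1) := hA3.le
    _ ≤ ε' * (H : ℝ) ^ (k + 1) := mul_le_mul_of_nonneg_right (min_le_left _ _) (by positivity)

end Pool.Agent.N688.RO
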