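import Pool.Agent.N646.AC.Clq

/-!
# Almost complete sets from rare failing tuples

Variant of `Pool.Agent.N646.AC.wclique` (helper646): the hypothesis is only that FEW tuples of `4 m` elements have
no subset of `m` elements in the family.
-/

set_option autoImplicit false

namespace Pool.Agent.N688.RO

open Finset Filter Topology
open Pool.Agent.N646.AC

/-- the total over all `t` is small for large `T` -/
theorem total_small4 (Q : ℕ) (κ : ℝ) (hκ0 : 0 < κ) (hκ1 : κ ≤ 1) (η : ℝ) (hη : 0 < η) (m₀ : ℕ) :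
    ∃ m : ℕ, 1 ≤ m ∧ m₀ ≤ m ∧
      (((4 * m : ℕ) : ℝ) + 1) ^ Q * (Real.exp Q * (1 - κ ^ 2 / 4) ^ (4 * m - Q)) ≤ η := by
  set c : ℝ := 1 - κ ^ 2 / 4 with hc
  have hc1 : c < 1 := by rw [hc]; nlinarith [sq_nonneg κ, sq_pos_of_pos hκ0]
  have hc0 : 0 < c := by rw [hc]; nlinarith
  have h1 : Tendsto (fun m : ℕ => (m : ℝ) ^ Q * c ^ m) atTop (𝓝 0) :=
    tendsto_pow_const_mul_const_pow_of_abs_lt_one Q (by rw [abs_of_pos hc0]; exact hc1)
  have h2 : ∀ᶠ m : ℕ in atTop, (m : ℝ) ^ Q * c ^ m < η * c ^ (Q + 1) / Real.exp Q :=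
    h1.eventually_lt_const (by positivity)
  obtain ⟨N₁, hN₁⟩ := eventually_atTop.1 h2
  obtain ⟨j, hj⟩ : ∃ j, j = N₁ + Q + m₀ + 1 := ⟨_, rfl⟩
  obtain ⟨m, hmd⟩ : ∃ m, m = 4 * j + 1 := ⟨_, rfl⟩
  have hm := hN₁ m (by omega)
  refine ⟨j, by omega, by omega, ?_⟩
  have e1 : ((4 * j : ℕ) : ℝ) + 1 = m := by
    rw [hmd]
    push_cast
    ring
  rw [e1]
  have e0 : 4 * j = m - 1 := by omega
  rw [e0]
  have e2 : c ^ (Q + 1) * c ^ (m - 1 - Q) = c ^ m := by
    rw [← pow_add]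
    congr 1
    omega
  have h3 : (m : ℝ) ^ Q * c ^ m * Real.exp Q < η * c ^ (Q + 1) := by
    rwa [lt_div_iff₀ (Real.exp_pos _)] at hm
  have hcp : 0 < c ^ (Q + 1) := by positivity
  have h4 : c ^ (Q + 1) * ((m : ℝ) ^ Q * (Real.exp Q * c ^ (m - 1 - Q))) ≤ c ^ (Q + 1) * η := by
    calc c ^ (Q + 1) * ((m : ℝ) ^ Q * (Real.exp Q * c ^ (m - 1 - Q)))
        = (m : ℝ) ^ Q * (c ^ (Q + 1) * c ^ (m - 1 - Q)) * Real.exp Q := by ring
      _ = (m : ℝ) ^ Q * c ^ m * Real.exp Q := by rw [e2]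
      _ ≤ _ := by linarith
  exact le_of_mul_le_mul_left h4 hcp

open Classical in
/-- **an almost complete set**, if few tuples fail -/
theorem wcl4 (k : ℕ) (ε : ℝ) (hε : 0 < ε) (m₀ : ℕ) : ∃ m n₀ : ℕ, 1 ≤ m ∧ m₀ ≤ m ∧
    ∀ (α : Type) [DecidableEq α] (V : Finset α) (G : Finset α → Prop),
      n₀ ≤ V.card → (∀ F F' : Finset α, F' ⊆ F → G F → G F') →
      (((Fintype.piFinset (fun _ : Fin (4 * m) => V)).filter (fun x => Function.Injective x ∧
        ∀ S : Finset (Fin (4 * m)), m ≤ S.card → ¬ G (S.image x))).card : ℝ) ≤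
        1 / 8 * (V.card : ℝ) ^ (4 * m) →
      ∃ A ⊆ V, (1 / 4 - ε) * (V.card : ℝ) ≤ A.card ∧
        ((badT k A G).card : ℝ) < ε * (V.card : ℝ) ^ (k + 1) := by
  set a : ℝ := 1 / 4 with ha
  have ha0 : 0 ≤ a := by rw [ha]; norm_num
  have ha1 : a ≤ 1 := by rw [ha]; norm_num
  set κ : ℝ := min ε 1 with hκ
  have hκ0 : 0 < κ := lt_min hε one_pos
  have hκ1 : κ ≤ 1 := min_le_right _ _
  obtain ⟨Q, hQ⟩ := cont k ε hε
  obtain ⟨m, hm1, hm0, hT⟩ := total_small4 Q κ hκ0 hκ1 (1 / 8) (by norm_num) m₀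
  obtain ⟨T, hTd⟩ : ∃ T, T = 4 * m := ⟨_, rfl⟩
  rw [← hTd] at hT
  refine ⟨m, 8 * T ^ 2 + 1, hm1, hm0, ?_⟩
  intro α _ V G hVn hG hbad
  rw [← hTd] at hbad
  have hVpos : 0 < V.card := by omega
  have hn0 : (0 : ℝ) < V.card := by exact_mod_cast hVpos
  have hnT : (8 : ℝ) * T ^ 2 ≤ V.card := by exact_mod_cast (by omega : 8 * T ^ 2 ≤ V.card)
  have hninj := Pool.Agent.H362R2.CM.card_not_injective_le T V
  have hninj' : (((Fintype.piFinset (fun _ : Fin T => V)).filter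
      (fun φ => ¬ Function.Injective φ)).card : ℝ) ≤ 1 / 8 * (V.card : ℝ) ^ T := by
    have h1 : (((Fintype.piFinset (fun _ : Fin T => V)).filter
      (fun φ => ¬ Function.Injective φ)).card : ℝ) * V.card ≤
        (1 / 8 * (V.card : ℝ) ^ T) * V.card := by
      refine le_trans (le_of_eq (by congr!)) (hninj.trans ?_)
      have : (0 : ℝ) ≤ (V.card : ℝ) ^ T := by positivity
      nlinarith
    exact le_of_mul_le_mul_right h1 hn0
  by_contra hcon
  push Not at hcon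
  -- the containers
  obtain ⟨Ψ, hΨ1, hΨ2⟩ := hQ α (V.card : ℝ) hn0 (badT k V G) V le_rfl
  have hΨW : ∀ τ, ((Ψ τ).card : ℝ) < (a - ε) * (V.card : ℝ) := by
    intro τ
    obtain ⟨h1, h2⟩ := hΨ1 τ
    by_contra h3
    have h4 := hcon (Ψ τ) h1 (not_lt.1 h3)
    rw [ins_badT h1] at h2
    exact absurd h2 (not_lt.2 h4)
  have hΨw : ∀ τ, ∑ v ∈ V, (1 : ℝ) * ((if v ∈ Ψ τ then 1 else 0) - a) ≤ - κ * V.card := by
    intro τ
    have h1 : ∑ v ∈ V, (1 : ℝ) * ((if v ∈ Ψ τ then 1 else 0) - a) =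
        ((Ψ τ).card : ℝ) - a * (V.card : ℝ) := by
      have e1 : ∑ v ∈ V, (if v ∈ Ψ τ then (1 : ℝ) else 0) = ((Ψ τ).card : ℝ) := by
        rw [← sum_filter]
        have e2 : V.filter (fun v => v ∈ Ψ τ) = Ψ τ := by
          ext v
          simp only [mem_filter]
          exact ⟨fun h => h.2, fun h => ⟨(hΨ1 τ).1 h, h⟩⟩
        rw [e2, sum_const, nsmul_eq_mul, mul_one]
      simp only [one_mul, sum_sub_distrib]
      rw [e1, sum_const, nsmul_eq_mul]
      ring
    rw [h1]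
    have h2 := (hΨW τ).le
    have h3 : κ ≤ ε := min_le_left _ _
    nlinarith
  -- the bad samples
  set Bd := (Fintype.piFinset (fun _ : Fin T => V)).filter (fun x => Function.Injective x ∧
        ∀ S : Finset (Fin T), m ≤ S.card → ¬ G (S.image x)) with hBd
  set NI := (Fintype.piFinset (fun _ : Fin T => V)).filter (fun φ => ¬ Function.Injective φ) with hNI
  set E : (Fin Q → Option (Fin T)) → Finset (Fin T → α) := fun t =>
    (Fintype.piFinset (fun _ : Fin T => V)).filter (fun x =>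
      0 ≤ ∑ i, (fun _ : α => (1 : ℝ)) (x i) * ((if x i ∈ Ψ (fun i => (t i).map x) then 1 else 0) - a))
    with hE
  have hEc : ((univ.biUnion E).card : ℝ) ≤ 1 / 8 * (V.card : ℝ) ^ T := by
    have h1 : ((univ.biUnion E).card : ℝ) ≤ ∑ t : Fin Q → Option (Fin T), ((E t).card : ℝ) := by
      exact_mod_cast card_biUnion_le
    refine h1.trans ?_
    have h2 : ∀ t ∈ (univ : Finset (Fin Q → Option (Fin T))), ((E t).card : ℝ) ≤
        Real.exp Q * ((1 - κ ^ 2 / 4) ^ (T - Q) * (V.card : ℝ) ^ T) := fun t _ =>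
      tail_bound V Ψ (fun _ => (1 : ℝ)) (fun _ _ => zero_le_one) (fun _ _ => le_rfl) a κ ha0 ha1 hκ0
        hκ1 hΨw t
    refine (sum_le_sum h2).trans ?_
    rw [sum_const, card_univ, Fintype.card_fun, Fintype.card_option, Fintype.card_fin,
      Fintype.card_fin, nsmul_eq_mul]
    push_cast
    calc ((T : ℝ) + 1) ^ Q * (Real.exp Q * ((1 - κ ^ 2 / 4) ^ (T - Q) * (V.card : ℝ) ^ T))
        = (((T : ℝ) + 1) ^ Q * (Real.exp Q * (1 - κ ^ 2 / 4) ^ (T - Q))) * (V.card : ℝ) ^ T := by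
          ring
      _ ≤ _ := mul_le_mul_of_nonneg_right hT (by positivity)
  -- a good sample
  have hgood : ∃ x ∈ Fintype.piFinset (fun _ : Fin T => V), x ∉ Bd ∧ x ∉ NI ∧
      x ∉ univ.biUnion E := by
    by_contra hno
    push Not at hno
    have h1 : Fintype.piFinset (fun _ : Fin T => V) ⊆ Bd ∪ NI ∪ univ.biUnion E := by
      intro x hx
      by_cases h2 : x ∈ Bd
      · exact mem_union_left _ (mem_union_left _ h2)
      by_cases h3 : x ∈ NI
      · exact mem_union_left _ (mem_union_right _ h3)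
      exact mem_union_right _ (hno x hx h2 h3)
    have h2 := (card_le_card h1).trans ((card_union_le _ _).trans
      (Nat.add_le_add_right (card_union_le _ _) _))
    rw [Fintype.card_piFinset, prod_const, card_univ, Fintype.card_fin] at h2
    have h3 : (V.card : ℝ) ^ T ≤ (Bd.card : ℝ) + NI.card + (univ.biUnion E).card := by
      exact_mod_cast h2
    have h4 : (0 : ℝ) < (V.card : ℝ) ^ T := by positivity
    have h5 : (Bd.card : ℝ) ≤ 1 / 8 * (V.card : ℝ) ^ T := by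
      rw [hBd]
      convert hbad
    linarith
  obtain ⟨x, hx, hxB, hxN, hxE⟩ := hgood
  rw [Fintype.mem_piFinset] at hx
  have hxinj : Function.Injective x := by
    by_contra h
    exact hxN (mem_filter.2 ⟨Fintype.mem_piFinset.2 hx, h⟩)
  have hnf : ∃ S : Finset (Fin T), m ≤ S.card ∧ G (S.image x) := by
    by_contra h
    push Not at h
    exact hxB (mem_filter.2 ⟨Fintype.mem_piFinset.2 hx, hxinj, h⟩)
  obtain ⟨S, hSm, hS⟩ := hnf
  have hindep : Indep (badT k V G) (S.image x) := by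
    intro y hy
    by_contra hall
    push Not at hall
    rw [mem_badT] at hy
    apply hy.2.2
    apply hG _ _ _ hS
    intro v hv
    obtain ⟨i, _, rfl⟩ := mem_image.1 hv
    exact hall i
  obtain ⟨τ, hτ1, hτ2⟩ := hΨ2 (S.image x) (by
    intro v hv
    obtain ⟨i, _, rfl⟩ := mem_image.1 hv
    exact hx i) hindep
  have ht : ∀ i, ∃ o : Option (Fin T), o.map x = τ i := by
    intro i
    cases h : τ i with
    | none => exact ⟨none, rfl⟩
    | some v =>
      obtain ⟨j, _, hj⟩ := mem_image.1 (hτ1 i v h)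
      exact ⟨some j, by simp [hj]⟩
  choose t ht using ht
  apply hxE
  rw [mem_biUnion]
  refine ⟨t, mem_univ _, ?_⟩
  simp only [hE]
  rw [mem_filter]
  refine ⟨Fintype.mem_piFinset.2 hx, ?_⟩
  have htau : (fun i => (t i).map x) = τ := funext ht
  rw [htau]
  simp only [one_mul, sum_sub_distrib]
  have h2 : (S.card : ℝ) ≤ ∑ i, (if x i ∈ Ψ τ then (1 : ℝ) else 0) := by
    have h3 : (S.card : ℝ) = ∑ i ∈ S, (if x i ∈ Ψ τ then (1 : ℝ) else 0) := by
      rw [sum_congr rfl (fun i hi => if_pos (hτ2 (mem_image_of_mem x hi))), sum_const, nsmul_eq_mul,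
        mul_one]
    rw [h3]
    refine sum_le_sum_of_subset_of_nonneg (subset_univ _) fun i _ _ => ?_
    split_ifs <;> norm_num
  have h4 : (T : ℝ) * a ≤ S.card := by
    have h5 : (m : ℝ) ≤ S.card := by exact_mod_cast hSm
    have h6 : (T : ℝ) = 4 * m := by
      have h7 := congrArg (Nat.cast : ℕ → ℝ) hTd
      push_cast at h7
      exact h7
    rw [ha, h6]
    linarith
  rw [sum_const, card_univ, Fintype.card_fin, nsmul_eq_mul]
  linarith

end Pool.Agent.N688.RO
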