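import Pool.Agent.Y877.RoH
import Pool.Agent.N688.RO.Wcl

/-!
# Tuples of shifts without subsets with the right number of realisations are rare

Adapted from `Pool.Agent.Y877.RO.rightOrder` (helper877).
-/

set_option autoImplicit false
set_option maxHeartbeats 4000000

namespace Pool.Agent.N688.RO

open Finset Filter Topology
open Pool.Agent.H378R2 Pool.Agent.H387R2 Pool.Agent.H387R2.MB Pool.Agent.H362R2.QT
open Pool.Agent.Y877 Pool.Agent.Y877.RO

/-- the least element -/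
noncomputable def mn (U : Finset ℤ) : ℤ := open Classical in if h : U.Nonempty then U.min' h else 0

theorem mn_le {U : Finset ℤ} {z : ℤ} (hz : z ∈ U) : mn U ≤ z := by
  unfold mn
  rw [dif_pos ⟨z, hz⟩]
  exact U.min'_le z hz

theorem mn_mem {U : Finset ℤ} (h : U.Nonempty) : mn U ∈ U := by
  unfold mn
  rw [dif_pos h]
  exact U.min'_mem h

/-- the pattern of the multiples by `D`, translated so that its least element is `0` -/
noncomputable def pat (D : ℕ) (U : Finset ℤ) : Finset ℕ := U.image (fun z => D * (z - mn U).toNat)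

/-- the pattern has the right number of realisations -/
def GoodZ (κ : ℝ) (D k N : ℕ) (U : Finset ℤ) : Prop :=
  κ * Uni.CT (pat D U) * (N / Real.log N ^ (k + 1)) ≤ piN N (pat D U)

/-- all the subsets of `k + 1` elements are good -/
def GG (κ : ℝ) (D k N : ℕ) (F : Finset ℤ) : Prop := ∀ U ⊆ F, U.card = k + 1 → GoodZ κ D k N U

theorem GG_mono {κ : ℝ} {D k N : ℕ} (F F' : Finset ℤ) (h : F' ⊆ F) (hF : GG κ D k N F) :
    GG κ D k N F' := fun U hU hc => hF U (hU.trans h) hc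

theorem pat_shift {D : ℕ} {U : Finset ℤ} (h0 : ∀ z ∈ U, 0 ≤ z) (hU : U.Nonempty) :
    (pat D U).image (fun t => t + D * (mn U).toNat) = U.image (fun z => D * z.toNat) := by
  unfold pat
  rw [image_image]
  apply image_congr
  intro z hz
  have h1 := mn_le hz
  have h2 := h0 _ (mn_mem hU)
  simp only [Function.comp_apply]
  rw [← Nat.mul_add]
  congr 1
  omega

theorem pat_card {D : ℕ} (hD : 1 ≤ D) {U : Finset ℤ} : (pat D U).card = U.card := by
  unfold pat
  apply card_image_of_injOn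
  intro z hz z' hz' h
  have h1 := mn_le hz
  have h2 := mn_le hz'
  have h3 := Nat.eq_of_mul_eq_mul_left hD h
  omega

open Classical in
/-- **failing tuples are rare** -/
theorem rare (k m : ℕ) (hm1 : 1 ≤ m) (hkm : k + 1 ≤ 4 * m) : ∃ P0 : ℕ, 1 ≤ P0 ∧
    (∀ p : ℕ, p.Prime → p ≤ k + 1 → p ∣ P0) ∧ ∀ lam : ℝ, 0 < lam →
    ∃ κ : ℝ, 0 < κ ∧ ∀ C : ℝ, ∀ᶠ N : ℕ in atTop, ∀ q : ℕ, 1 ≤ q → ∀ H : ℕ,
    lam * Real.log N ≤ H → (q : ℝ) * H ≤ Real.log N ^ C →
    (((Fintype.piFinset (fun _ : Fin (4 * m) => Ico 0 (H : ℤ))).filter (fun x =>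
      Function.Injective x ∧ ∀ S : Finset (Fin (4 * m)), m ≤ S.card →
        ¬ GG κ (P0 * q) k N (S.image x))).card : ℝ) ≤ 1 / 8 * (H : ℝ) ^ (4 * m) := by
  obtain ⟨K', hK', δ, hδ, _, c0, hc0, hlow⟩ := low_holds m hm1
  obtain ⟨n, hn⟩ : ∃ n, n = 4 * m * K' := ⟨_, rfl⟩
  have hn1 : 1 ≤ n := by rw [hn]; exact Nat.mul_pos (by omega) hK'
  have hkn : k + 1 ≤ n := by rw [hn]; exact hkm.trans (Nat.le_mul_of_pos_right _ hK')
  have hn4 : n ≤ 4 * n ^ 2 := by nlinarith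
  obtain ⟨P0, hP0⟩ : ∃ P0, P0 = (4 * n ^ 2).factorial := ⟨_, rfl⟩
  have hP01 : 1 ≤ P0 := by rw [hP0]; exact Nat.factorial_pos _
  have hdvd : ∀ p : ℕ, p.Prime → p ≤ 4 * n ^ 2 → p ∣ P0 := by
    intro p hp hpn
    rw [hP0]
    exact (hp.dvd_factorial).2 hpn
  refine ⟨P0, hP01, fun p hp hpk => hdvd p hp (hpk.trans (hkn.trans hn4)), fun lam hlam => ?_⟩
  obtain ⟨κ₁, hκ₁d⟩ : ∃ κ₁ : ℝ, κ₁ = 1 / 8 := ⟨_, rfl⟩
  have hκ₁ : 0 < κ₁ := by rw [hκ₁d]; norm_num
  have hκ₁1 : κ₁ ≤ 1 := by rw [hκ₁d]; norm_num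
  obtain ⟨κA, hκAd⟩ : ∃ κA, κA = κ₁ ^ (K' ^ (4 * m)) := ⟨_, rfl⟩
  have hκA : 0 < κA := by rw [hκAd]; positivity
  have hκA1 : κA ≤ 1 := by rw [hκAd]; exact pow_le_one₀ hκ₁.le hκ₁1
  obtain ⟨Cs, hCs⟩ : ∃ Cs : ℝ, Cs = 8 := ⟨_, rfl⟩
  have hCs0 : 0 < Cs := by rw [hCs]; norm_num
  obtain ⟨κ', hκ', hfail⟩ := fail_small k m K' hm1 hkm hK' δ c0 hδ hc0 hlow (κA / (32 * Cs ^ n))
    (κA / 32 * lam) (by positivity) (by positivity)
  obtain ⟨κ, hκd⟩ : ∃ κ, κ = κ' * κA / (64 * ((n : ℝ) ^ (k + 1) * Cs ^ n)) := ⟨_, rfl⟩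
  have hκ : 0 < κ := by rw [hκd]; positivity
  refine ⟨κ, hκ, fun C => ?_⟩
  obtain ⟨A₀, hA₀⟩ : ∃ A₀ : ℝ, A₀ = 1 + 2 * (n : ℝ) ^ 2 / κA + P0 := ⟨_, rfl⟩
  filter_upwards [hfail (C + 1), bad_conv k (C + 1), num_ev lam A₀ hlam] with N h1 h2 h3
  obtain ⟨hy2, hy4, hA1, hA2, hL1⟩ := h3
  intro q hq H hH hu
  obtain ⟨y, hy⟩ : ∃ y, y = ⌊Real.log (Real.log (N : ℝ))⌋₊ := ⟨_, rfl⟩
  obtain ⟨M, hM⟩ : ∃ M, M = ⌊Real.log (N : ℝ) ^ (C + 1)⌋₊ := ⟨_, rfl⟩
  rw [← hy] at h1 h2 hy2 hy4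
  rw [← hM] at h1 h2
  have hL0 : 0 < Real.log (N : ℝ) := by linarith
  have hH1 : A₀ ≤ H := hA1.trans hH
  have hp2 : 0 ≤ 2 * (n : ℝ) ^ 2 / κA := by positivity
  have hp3 : (0 : ℝ) ≤ P0 := by positivity
  have hHn : 2 * (n : ℝ) ^ 2 / κA ≤ H := by linarith
  have hLP : (P0 : ℝ) ≤ Real.log N := by linarith
  have hHpos : 1 ≤ H := by
    have : (1 : ℝ) ≤ H := by linarith
    exact_mod_cast this
  have hH0 : (0 : ℝ) < H := by exact_mod_cast hHpos
  obtain ⟨D, hD⟩ : ∃ D, D = P0 * q := ⟨_, rfl⟩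
  have hD1 : 1 ≤ D := by rw [hD]; exact Nat.mul_pos hP01 hq
  rw [← hD]
  by_contra hcon
  push Not at hcon
  obtain ⟨Bd, hBd⟩ : ∃ Bd, Bd = (Fintype.piFinset (fun _ : Fin (4 * m) => Ico 0 (H : ℤ))).filter (fun x =>
      Function.Injective x ∧ ∀ S : Finset (Fin (4 * m)), m ≤ S.card →
        ¬ GG κ D k N (S.image x)) := ⟨_, rfl⟩
  rw [← hBd] at hcon
  -- the windows
  obtain ⟨V, hV⟩ : ∃ V : Finset ℕ, V = (Ico 0 (0 + H)).image (fun x => D * x) := ⟨_, rfl⟩
  have hVc : V.card = H := by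
    rw [hV, card_image_of_injective, Nat.card_Ico]
    · omega
    · intro x y hxy
      exact Nat.eq_of_mul_eq_mul_left hD1 hxy
  have hVM : ∀ t ∈ V, t ≤ M ∧ D ∣ t := by
    intro t ht
    rw [hV] at ht
    obtain ⟨x, hx, rfl⟩ := mem_image.1 ht
    refine ⟨?_, Dvd.intro _ rfl⟩
    rw [hM]
    apply Nat.le_floor
    have hx2 : x ≤ H := by
      have := (mem_Ico.1 hx).2
      omega
    obtain ⟨B, hB⟩ : ∃ B : ℝ, B = Real.log (N : ℝ) ^ C := ⟨_, rfl⟩
    have hB0 : 0 ≤ B := by rw [hB]; exact Real.rpow_nonneg hL0.le _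
    rw [← hB] at hu
    have e3 : Real.log (N : ℝ) ^ (C + 1) = Real.log N * B := by
      rw [hB, Real.rpow_add hL0, Real.rpow_one, mul_comm]
    rw [e3, hD]
    push_cast
    have e4 : (x : ℝ) ≤ H := by exact_mod_cast hx2
    calc (P0 : ℝ) * q * x ≤ (P0 : ℝ) * q * H := by gcongr
      _ = (P0 : ℝ) * ((q : ℝ) * H) := by ring
      _ ≤ (P0 : ℝ) * B := by gcongr
      _ ≤ _ := mul_le_mul_of_nonneg_right hLP hB0
  -- the failing tuples of naturals
  obtain ⟨τ, hτ⟩ : ∃ τ : (Fin (4 * m) → ℤ) → (Fin (4 * m) → ℕ), τ = fun x i => D * (x i).toNat := ⟨_, rfl⟩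
  obtain ⟨Tc, hTc⟩ : ∃ Tc, Tc = Bd.image τ := ⟨_, rfl⟩
  have hBd0 : ∀ x ∈ Bd, ∀ i, 0 ≤ x i ∧ x i < H := by
    intro x hx i
    rw [hBd, mem_filter, Fintype.mem_piFinset] at hx
    exact mem_Ico.1 (hx.1 i)
  have hTcc : Tc.card = Bd.card := by
    rw [hTc]
    apply card_image_of_injOn
    intro x hx x' hx' hxx
    funext i
    have e1 := congrFun hxx i
    rw [hτ] at e1
    have e2 := Nat.eq_of_mul_eq_mul_left hD1 e1
    have e3 := hBd0 x hx i
    have e4 := hBd0 x' hx' i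
    omega
  have hTc1 : ∀ x ∈ Tc, ∀ i, x i ∈ (fun _ : Fin (4 * m) => V) i := by
    intro z hz i
    rw [hTc] at hz
    obtain ⟨x, hx, rfl⟩ := mem_image.1 hz
    rw [hτ, hV]
    have e3 := hBd0 x hx i
    exact mem_image_of_mem _ (mem_Ico.2 ⟨Nat.zero_le _, by omega⟩)
  have hTc2 : κ₁ * ∏ i : Fin (4 * m), (((fun _ : Fin (4 * m) => V) i).card : ℝ) ≤ Tc.card := by
    rw [prod_const, card_univ, Fintype.card_fin, hVc, hTcc, hκ₁d]
    exact hcon.le
  -- the blow-ups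
  obtain ⟨A0, hA0, hblow⟩ := blow' K' hK' (4 * m) (fun _ => V) Tc κ₁ hκ₁.le hTc1 hTc2
  have hblow' : κA * (H : ℝ) ^ n ≤ A0.card := by
    have e0 : (∏ g : Fin (4 * m), (((fun _ : Fin (4 * m) => V) g).card : ℝ)) ^ K' = (H : ℝ) ^ n := by
      rw [prod_const, card_univ, Fintype.card_fin, hVc, ← pow_mul, hn]
    rw [e0, ← hκAd] at hblow
    exact hblow
  obtain ⟨Ac, hAc⟩ : ∃ Ac, Ac = A0.filter (fun A => Function.Injective A) := ⟨_, rfl⟩
  have hcI : Fintype.card (Fin (4 * m) × Fin K') = n := by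
    rw [Fintype.card_prod, Fintype.card_fin, Fintype.card_fin, hn]
  have hAcc : κA / 2 * (H : ℝ) ^ n ≤ Ac.card := by
    have e1 := noninj (ι := Fin (4 * m) × Fin K') (fun _ => V) H (fun _ => hVc)
    rw [hcI] at e1
    have e2 : A0.card ≤ Ac.card + ((Fintype.piFinset (fun _ : Fin (4 * m) × Fin K' => V)).filter
        (fun A => ¬ Function.Injective A)).card := by
      rw [hAc, ← card_filter_add_card_filter_not (s := A0) (fun A => Function.Injective A)]
      apply Nat.add_le_add_left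
      apply card_le_card
      apply filter_subset_filter
      intro A hA
      rw [Fintype.mem_piFinset]
      exact (hA0 A hA).1
    have e3 : (A0.card : ℝ) ≤ Ac.card + (n : ℝ) ^ 2 * (H : ℝ) ^ (n - 1) := by
      exact_mod_cast e2.trans (Nat.add_le_add_left e1 _)
    have e4 : (n : ℝ) ^ 2 * (H : ℝ) ^ (n - 1) ≤ κA / 2 * (H : ℝ) ^ n := by
      have e5 : (H : ℝ) ^ n = H * (H : ℝ) ^ (n - 1) := by
        rw [← pow_succ', Nat.sub_add_cancel hn1]
      rw [e5, ← mul_assoc]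
      apply mul_le_mul_of_nonneg_right _ (by positivity)
      have e6 := hHn
      rw [div_le_iff₀ hκA] at e6
      linarith
    linarith
  have hAcV : ∀ A ∈ Ac, ∀ x, A x ∈ V := by
    intro A hA x
    rw [hAc, mem_filter] at hA
    exact (hA0 A hA.1).1 x
  -- the bad sets
  obtain ⟨Xc, hXc⟩ : ∃ Xc, Xc = (V.powersetCard (k + 1)).filter (fun X =>
    κ' * nG κ' k N y X ≤ 2 * κ * Uni.gT (Uni.WW y) X) := ⟨_, rfl⟩
  have hline : ∀ A ∈ Ac, ∀ S' : Finset (Fin (4 * m)), m ≤ S'.card → ∀ c : Fin (4 * m) → Fin K',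
      ∃ X ∈ Xc, X ⊆ S'.image (fun i => A (i, c i)) := by
    intro A hA S' hS' c
    have hAT : (fun i => A (i, c i)) ∈ Tc := by
      rw [hAc, mem_filter] at hA
      exact (hA0 A hA.1).2 c
    rw [hTc] at hAT
    obtain ⟨x, hx, hxA⟩ := mem_image.1 hAT
    have hx0 := hBd0 x hx
    have hxi : ∀ i, D * (x i).toNat = A (i, c i) := by
      intro i
      have := congrFun hxA i
      rw [hτ] at this
      exact this
    have hxB := hx
    rw [hBd, mem_filter] at hxB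
    have hnG := hxB.2.2 S' hS'
    unfold GG at hnG
    push Not at hnG
    obtain ⟨U, hU1, hU2, hU3⟩ := hnG
    unfold GoodZ at hU3
    rw [not_le] at hU3
    have hUne : U.Nonempty := by rw [← card_pos]; omega
    have hU0 : ∀ z ∈ U, 0 ≤ z := by
      intro z hz
      obtain ⟨i, _, rfl⟩ := mem_image.1 (hU1 hz)
      exact (hx0 i).1
    have hps := pat_shift (D := D) hU0 hUne
    have hXs : U.image (fun z => D * z.toNat) ⊆ S'.image (fun i => A (i, c i)) := by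
      intro t ht
      obtain ⟨z, hz, rfl⟩ := mem_image.1 ht
      obtain ⟨i, hi, rfl⟩ := mem_image.1 (hU1 hz)
      rw [hxi i]
      exact mem_image_of_mem (fun i => A (i, c i)) hi
    have hXV : U.image (fun z => D * z.toNat) ⊆ V := by
      intro t ht
      obtain ⟨i, _, rfl⟩ := mem_image.1 (hXs ht)
      exact hAcV A hA _
    have hpc : (pat D U).card = k + 1 := by rw [pat_card hD1, hU2]
    refine ⟨_, ?_, hXs⟩
    rw [hXc, mem_filter, mem_powersetCard, ← hps]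
    refine ⟨⟨by rw [hps]; exact hXV, ?_⟩, ?_⟩
    · rw [card_image_of_injective _ (add_left_injective _), hpc]
    · refine h2 κ κ' hκ.le hκ' (pat D U) (D * (mn U).toNat) hpc (fun t ht => ?_) hU3
      have : t + D * (mn U).toNat ∈ (pat D U).image (fun t => t + D * (mn U).toNat) :=
        mem_image_of_mem (fun t => t + D * (mn U).toNat) ht
      rw [hps] at this
      exact (hVM _ (hXV this)).1
  -- the double counting
  have hup := classArg k m K' N y hm1 hkm hK' κ' κ (κA / (32 * Cs ^ n)) (κA / 32 * lam * rho y * Real.log N)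
    (Cs * (H * rD D y)) (2 * (Uni.WW y * dD D y)) hκ' hκ.le (by positivity)
    (by have := (rho_pos y).le; positivity) (by have := (rD_pos D y).le; positivity) V Ac Xc hAcV
    (fun A hA => by rw [hAc, mem_filter] at hA; exact hA.2) hline
    (fun X hX => by
      rw [hXc, mem_filter, mem_powersetCard] at hX
      exact ⟨hX.1.2, hX.1.1, hX.2⟩)
    (fun b => by
      have e1 : 4 ^ (y / 2) ≤ H := by
        have e2 : ((4 ^ (y / 2) : ℕ) : ℝ) ≤ (H : ℝ) := by
          push_cast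
          exact hy4.trans hH
        exact_mod_cast e2
      have e3 := shift_upper D y b 0 H hy2 e1
      have e4 : (Sb y V b).card ≤
          ((Ico 0 (0 + H)).filter (fun x => Nat.Coprime (Uni.WW y) (b + D * x))).card := by
        unfold Sb
        rw [hV, filter_image]
        exact card_image_le
      rw [hCs]
      calc ((Sb y V b).card : ℝ) ≤
          (((Ico 0 (0 + H)).filter (fun x => Nat.Coprime (Uni.WW y) (b + D * x))).card : ℝ) := by
            exact_mod_cast e4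
        _ ≤ 8 * (H : ℝ) * rD D y := e3
        _ = _ := by ring)
    (by
      refine le_trans ?_ (class_upper D y)
      apply Nat.cast_le.2
      apply card_le_card
      intro b hb
      rw [mem_filter] at hb ⊢
      refine ⟨hb.1, ?_⟩
      obtain ⟨t, ht⟩ := hb.2
      unfold Sb at ht
      rw [mem_filter, hV] at ht
      obtain ⟨hti, ht2⟩ := ht
      obtain ⟨x, _, rfl⟩ := mem_image.1 hti
      exact ⟨x, ht2⟩)
    (fun b hb => by
      refine h1 b (Sb y V b) (fun t ht => ?_) (fun t ht => ?_) hb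
      · unfold Sb at ht
        exact (hVM t (mem_filter.1 ht).1).1
      · unfold Sb at ht
        exact (mem_filter.1 ht).2)
  rw [← hn] at hup
  have hlo : (Ac.card : ℝ) * (1 / 2 * (Uni.WW y * dD D y) * rD D y ^ n) ≤
      ∑ A ∈ Ac, (Uni.gT (Uni.WW y) (univ.image A) : ℝ) := by
    rw [← nsmul_eq_mul]
    apply card_nsmul_le_sum
    intro A hA
    refine gT_lower n D y hn1 (fun p hp hpn => ?_) (univ.image A) ?_ ?_
    · rw [hD]
      exact (hdvd p hp hpn).mul_right _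
    · refine card_image_le.trans ?_
      rw [card_univ, hcI]
    · intro t ht
      obtain ⟨x, _, rfl⟩ := mem_image.1 ht
      exact (hVM _ (hAcV A hA x)).2
  have hW0 : (0 : ℝ) < Uni.WW y := by exact_mod_cast Uni.WW_pos y
  have hdD := dD_pos D y
  have hrD := rD_pos D y
  refine fincomp n k hn1 κA Cs κ' H (rD D y) (κA / 32 * lam * rho y * Real.log N) (Uni.WW y * dD D y)
    Ac.card _ hκA hκA1 hCs0 hκ' hH0 hrD (by have := (rho_pos y).le; positivity) (by positivity) ?_ hAcc hlo ?_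
  · have e1 := rho_le_rD D y
    calc κA / 32 * lam * rho y * Real.log N = κA / 32 * ((lam * Real.log N) * rho y) := by ring
      _ ≤ κA / 32 * (H * rD D y) := by
          have := (rho_pos y).le
          gcongr
  · rw [hκd] at hup
    exact hup

end Pool.Agent.N688.RO
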